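import Pool.Agent.H212WH.P_ibp
import Pool.Agent.H212WH.P_gs
import Pool.Agent.H212WH.P_low1
import Pool.Agent.H212WH.P_odd
import Pool.Agent.H212WH.P_red
import Pool.Agent.H212WH.P_avg
import Pool.Agent.H212WH.P_pol
import Pool.Agent.H212WH.P_1d
import Pool.Agent.H212WH.P_nr
import Pool.Agent.H212WH.P_low2
import Pool.Agent.H212WH.P_ibp2
import Pool.Agent.H212WH.P_Ip
import Pool.Agent.H212WH.P_cut
import Pool.Agent.H212WH.P_u1
import Pool.Agent.H212WH.P_u2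
import Pool.Agent.H212WH.P_u3
import Pool.Agent.H212WH.P_u4
import Pool.Agent.H212WH.P_u5
import Pool.Agent.H212WH.P_top

/-!
# The best constant in the weighted Hardy inequality with weight `(1 + |x|²) ^ α`

For every dimension `n ≥ 3` and every real `α ≠ -(n-2)/2` the best constant `C(α, n)` is computed.
-/

set_option autoImplicit false

namespace Pool.Agent.Results.MP_5b99fd_an.SharpWeightedHardy

open MeasureTheory
open scoped ContDiff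

/-- The best constant `C(α, n)`: the greatest lower bound of the quotients
`∫ (1 + |x|²)^α |∇u|² / ∫ (1 + |x|²)^(α-1) u²` over all nonzero smooth compactly supported `u`,
subject to `∫ (1 + |x|²)^(α-1) u = 0` when `α < -(n-2)/2`. -/
theorem result (n : ℕ) (hn : 3 ≤ n) (α : ℝ) (hα : α ≠ -((n : ℝ) - 2) / 2) :
    IsGLB {c : ℝ | ∃ u : EuclideanSpace ℝ (Fin n) → ℝ,
        ContDiff ℝ ∞ u ∧ HasCompactSupport u ∧ u ≠ 0 ∧
        (α < -((n : ℝ) - 2) / 2 → ∫ x, (1 + ‖x‖ ^ 2) ^ (α - 1) * u x = 0) ∧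
        c = (∫ x, (1 + ‖x‖ ^ 2) ^ α * ‖fderiv ℝ u x‖ ^ 2) /
          ∫ x, (1 + ‖x‖ ^ 2) ^ (α - 1) * u x ^ 2}
      (if α ≤ -(n : ℝ) then -2 * α
        else if α ≤ -((n : ℝ) + 2) / 2 then -4 * α - 2 * n
        else if α ≤ ((n : ℝ) + 2) / 2 then ((n : ℝ) + 2 * α - 2) ^ 2 / 4
        else 2 * n * (α - 1)) := by
  have hgs := Pool.Agent.H212WH.pf_gs Pool.Agent.H212WH.pf_ibp
  have hlow1 := Pool.Agent.H212WH.pf_low1 hgs
  have hred := Pool.Agent.H212WH.pf_red Pool.Agent.H212WH.pf_odd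
  have hnr := Pool.Agent.H212WH.pf_nr Pool.Agent.H212WH.pf_pol Pool.Agent.H212WH.pf_1d
  have hlow2 := Pool.Agent.H212WH.pf_low2 hred Pool.Agent.H212WH.pf_avg hnr
  have hIp := Pool.Agent.H212WH.pf_Ip (Pool.Agent.H212WH.pf_ibp2 Pool.Agent.H212WH.pf_ibp)
  have hcut := Pool.Agent.H212WH.pf_cut
  have h := Pool.Agent.H212WH.pf_top hlow1 hlow2 (Pool.Agent.H212WH.pf_u1 hIp hcut) (Pool.Agent.H212WH.pf_u2 hIp hcut)
    (Pool.Agent.H212WH.pf_u3 hIp hcut) (Pool.Agent.H212WH.pf_u4 hIp hcut) (Pool.Agent.H212WH.pf_u5 hIp hcut) n α hn hα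
  have hset : {c : ℝ | ∃ u, Pool.Agent.H212WH.Adm n α u ∧ c = Pool.Agent.H212WH.en n α u / Pool.Agent.H212WH.ms n α u} =
      {c : ℝ | ∃ u : EuclideanSpace ℝ (Fin n) → ℝ,
        ContDiff ℝ ∞ u ∧ HasCompactSupport u ∧ u ≠ 0 ∧
        (α < -((n : ℝ) - 2) / 2 → ∫ x, (1 + ‖x‖ ^ 2) ^ (α - 1) * u x = 0) ∧
        c = (∫ x, (1 + ‖x‖ ^ 2) ^ α * ‖fderiv ℝ u x‖ ^ 2) /
          ∫ x, (1 + ‖x‖ ^ 2) ^ (α - 1) * u x ^ 2} := by
    ext c
    simp only [Set.mem_setOf_eq, Pool.Agent.H212WH.Adm, Pool.Agent.H212WH.en, Pool.Agent.H212WH.ms, Pool.Agent.H212WH.wt, and_assoc]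
  rw [← hset]
  exact h

end Pool.Agent.Results.MP_5b99fd_an.SharpWeightedHardy
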